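import Pool.Agent.H14.BR.Stm

set_option autoImplicit false

namespace H77.BR

open ZFSet (pair)
open Pool.Agent.W868
open MeasureTheory H14.ES H46.RF H14.BR
open scoped ENNReal

theorem nu1 (hKO : S_KO1) (hZ : S_ZRL) (hW : S_WRD) : S_NU1 := by
  intro M hM T hT b hins hnull
  obtain ⟨hTM, hTt, hTp⟩ := hT
  have hB := hM.base
  obtain ⟨-, -, heq, hsub, -, -⟩ := hW
  -- a small `k`
  obtain ⟨k, hk⟩ : ∃ k : ℕ, ((2 : ℝ≥0∞) ^ k)⁻¹ < mu ℕ (body T) := by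
    obtain ⟨k, hk⟩ := ENNReal.exists_inv_two_pow_lt hTp.ne'
    refine ⟨k, ?_⟩
    rw [← ENNReal.inv_pow] at hk
    exact hk
  obtain ⟨F, hFM, hFw, hFm, hFc⟩ := hnull k
  have hd : Dfn M M fun w : Fin 1 → ZFSet.{0} => ∀ y ∈ F, ¬ y ⊆ w 0 := by
    apply hB.ball (DfnF.const hFM)
    exact (hB.subset' (DfnF.proj _) (DfnF.proj (1 : Fin 2))).not
  obtain ⟨T₂, hT₂⟩ : ∃ T₂ : ZFSet.{0}, T₂ = ZFSet.sep (fun z => ∀ y ∈ F, ¬ y ⊆ z) T := ⟨_, rfl⟩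
  have hT₂M : T₂ ∈ M := by
    rw [hT₂]
    exact hM.sep_mem (Q := fun z => ∀ y ∈ F, ¬ y ⊆ z) hd hTM
  have hmem : ∀ z, z ∈ T₂ ↔ z ∈ T ∧ ∀ y ∈ F, ¬ y ⊆ z := fun z => by rw [hT₂, ZFSet.mem_sep]
  have hT₂t : IsTree T₂ := by
    constructor
    · intro z hz
      exact hTt.word z ((hmem z).1 hz).1
    · intro r n h
      obtain ⟨h1, h2⟩ := (hmem _).1 h
      refine (hmem _).2 ⟨hTt.down r n h1, fun y hy hyn => h2 y hy (hyn.trans ?_)⟩
      exact (hsub _ _ _ _).2 ⟨by omega, fun _ _ => rfl⟩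
  have hne : (body T₂).Nonempty := by
    by_contra hcon
    rw [Set.not_nonempty_iff_eq_empty] at hcon
    have h1 : body T ⊆ {r | ∃ n, ini r n ∈ F} := by
      intro r hr
      by_contra h2
      have h3 : ∀ n, ini r n ∉ F := fun n hn => h2 ⟨n, hn⟩
      have h4 : r ∈ body T₂ := by
        intro n
        refine (hmem _).2 ⟨hr n, fun y hy hyn => ?_⟩
        obtain ⟨r', m, rfl⟩ := hFw y hy
        obtain ⟨h5, h6⟩ := (hsub _ _ _ _).1 hyn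
        have h7 : ini r' m = ini r m := (heq _ _ _ _).2 ⟨rfl, h6⟩
        rw [h7] at hy
        exact h3 m hy
      rw [hcon] at h4
      exact h4
    exact absurd ((measure_mono h1).trans hFm) (not_le.2 hk)
  obtain ⟨s, hs, hsM⟩ := hKO M hM T₂ hT₂M hT₂t hne
  have hsT : s ∈ body T := fun n => ((hmem _).1 (hs n)).1
  obtain ⟨z, hzF, hzs⟩ := hFc _ (hins s hsT hsM)
  obtain ⟨r, n, rfl⟩ := hFw z hzF
  have h8 := (hZ.1 r s n).1 hzs
  have h9 : ini r n ⊆ ini s n := (hsub _ _ _ _).2 ⟨le_rfl, h8⟩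
  exact ((hmem _).1 (hs n)).2 _ hzF h9

end H77.BR
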