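import Pool.Agent.H14.BR.Stm

set_option autoImplicit false

namespace H77.BR

open MeasureTheory H14.ES Filter Topology
open scoped ENNReal

theorem un0 : H14.BR.S_UN0 := by
  intro A B hA hB k h
  obtain ⟨U, hU⟩ : ∃ U : ℕ → Set (ℕ → Bool), U = fun n => (⋃ i ∈ Finset.range n, A i) ∪ ⋂ i, B i :=
    ⟨_, rfl⟩
  have hUm : ∀ n, MeasurableSet (U n) := by
    intro n
    rw [hU]
    exact (Finset.measurableSet_biUnion _ fun i _ => hA i).union (MeasurableSet.iInter hB)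
  have hmono : Monotone U := by
    intro n m hnm x hx
    rw [hU] at hx ⊢
    rcases hx with hx | hx
    · left
      simp only [Set.mem_iUnion, Finset.mem_range, exists_prop] at hx ⊢
      obtain ⟨i, hi, hxi⟩ := hx
      exact ⟨i, by omega, hxi⟩
    · right; exact hx
  have hprob : ∀ S : Set (ℕ → Bool), MeasurableSet S → mu ℕ S + mu ℕ Sᶜ = 1 := fun S hS =>
    prob_add_prob_compl hS
  have h1 : ∀ i, mu ℕ (A i ∪ B i)ᶜ ≤ (2 ^ (i + k + 2))⁻¹ := by
    intro i
    have h2 := hprob (A i ∪ B i) ((hA i).union (hB i))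
    have h3 := h i
    rw [← h2] at h3
    exact (ENNReal.add_le_add_iff_left (measure_ne_top _ _)).1 h3
  have hsub : (⋃ n, U n)ᶜ ⊆ ⋃ i, (A i ∪ B i)ᶜ := by
    intro x hx
    simp only [Set.mem_compl_iff, Set.mem_iUnion, not_exists] at hx
    have h2 : ∀ n, x ∉ U n := hx
    rw [hU] at h2
    have h3 : ∃ j, x ∉ B j := by
      by_contra hcon
      push Not at hcon
      exact h2 0 (Or.inr (Set.mem_iInter.2 hcon))
    obtain ⟨j, hj⟩ := h3
    simp only [Set.mem_iUnion, Set.mem_compl_iff]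
    refine ⟨j, ?_⟩
    rintro (h4 | h4)
    · apply h2 (j + 1)
      left
      simp only [Set.mem_iUnion, Finset.mem_range, exists_prop]
      exact ⟨j, by omega, h4⟩
    · exact hj h4
  have hsum : ∑' i : ℕ, ((2 : ℝ≥0∞) ^ (i + k + 2))⁻¹ = (2 ^ (k + 1))⁻¹ := by
    have e1 : ∀ i : ℕ, ((2 : ℝ≥0∞) ^ (i + k + 2))⁻¹ = (2 ^ (k + 2))⁻¹ * (2⁻¹) ^ i := by
      intro i
      rw [show i + k + 2 = (k + 2) + i by ring, pow_add, ENNReal.mul_inv (by simp) (by simp)]
      congr 1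
      exact ENNReal.inv_pow
    simp_rw [e1]
    rw [ENNReal.tsum_mul_left, ENNReal.tsum_geometric, ENNReal.one_sub_inv_two, inv_inv,
      show k + 2 = (k + 1) + 1 by ring, pow_succ _ (k + 1), ENNReal.mul_inv (by simp) (by simp), mul_assoc,
      ENNReal.inv_mul_cancel (by simp) (by simp), mul_one]
  have h5 : mu ℕ (⋃ n, U n)ᶜ ≤ (2 ^ (k + 1))⁻¹ := by
    refine (measure_mono hsub).trans ((measure_iUnion_le _).trans ?_)
    rw [← hsum]
    exact ENNReal.tsum_le_tsum h1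
  have h6 : 1 ≤ mu ℕ (⋃ n, U n) + (2 ^ (k + 1))⁻¹ := by
    rw [← hprob _ (MeasurableSet.iUnion hUm)]
    gcongr
  by_contra hcon
  push Not at hcon
  have h7 : Tendsto (fun n => mu ℕ (U n) + (2 ^ k)⁻¹) atTop (𝓝 (mu ℕ (⋃ n, U n) + (2 ^ k)⁻¹)) :=
    (tendsto_measure_iUnion_atTop hmono).add tendsto_const_nhds
  have h8 : mu ℕ (⋃ n, U n) + (2 ^ k)⁻¹ ≤ 1 :=
    le_of_tendsto' h7 fun n => by
      have := hcon n
      rw [hU]
      exact this.le
  have h9 := h8.trans h6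
  have h10 := (ENNReal.add_le_add_iff_left (measure_ne_top _ _)).1 h9
  rw [ENNReal.inv_le_inv] at h10
  have h11 : (2 : ℝ≥0∞) ^ k < 2 ^ (k + 1) := by
    have : ((2 ^ k : ℕ) : ℝ≥0∞) < ((2 ^ (k + 1) : ℕ) : ℝ≥0∞) := by
      exact_mod_cast Nat.pow_lt_pow_right (by norm_num) (by omega)
    push_cast at this
    exact this
  exact absurd h10 (not_le.2 h11)

end H77.BR
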